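import Mathlib

open Filter Cardinal

namespace Q17.Para

/-- every sequence of hyperreals is bounded above -/
theorem exists_bound (s : ℕ → ℝ*) : ∃ b : ℝ*, ∀ n, s n < b := by
  choose u hu using fun n => Hyperreal.ofSeq_surjective (s n)
  refine ⟨Hyperreal.ofSeq (fun k => ∑ n ∈ Finset.range (k + 1), |u n k| + 1), fun n => ?_⟩
  rw [← hu n, Hyperreal.ofSeq_lt_ofSeq]
  have h1 : ∀ᶠ k in (atTop : Filter ℕ), u n k < ∑ i ∈ Finset.range (k + 1), |u i k| + 1 := by
    filter_upwards [eventually_ge_atTop n] with k hk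
    have h2 : |u n k| ≤ ∑ i ∈ Finset.range (k + 1), |u i k| :=
      Finset.single_le_sum (f := fun i => |u i k|) (fun i _ => abs_nonneg _)
        (Finset.mem_range.2 (by omega))
    have h3 := le_abs_self (u n k)
    linarith
  exact h1.filter_mono (Nat.cofinite_eq_atTop ▸ hyperfilter_le_cofinite)

theorem mk_hyperreal_le : #ℝ* ≤ 𝔠 := by
  have h := Cardinal.mk_le_of_surjective Hyperreal.ofSeq_surjective
  simpa [Cardinal.mk_real] using h

/-- a surjective homomorphism from the circle group onto the hyperreals -/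
theorem exists_hom : ∃ f : AddCircle (1 : ℝ) →+ ℝ*, Function.Surjective f := by
  let W : Submodule ℚ ℝ := Submodule.span ℚ {(1 : ℝ)}
  have hW : Module.rank ℚ W < ℵ₀ := by
    have : Module.Finite ℚ W := inferInstance
    exact Module.rank_lt_aleph0 ℚ W
  have hV : Module.rank ℚ (ℝ ⧸ W) = 𝔠 := by
    have h1 := Submodule.rank_quotient_add_rank W
    rw [Real.rank_rat_real, add_comm] at h1
    exact Cardinal.eq_of_add_eq_of_aleph0_le h1 (hW.trans_le Cardinal.aleph0_le_continuum)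
      Cardinal.aleph0_le_continuum
  let b := Module.Basis.ofVectorSpace ℚ (ℝ ⧸ W)
  have hb : #(Module.Basis.ofVectorSpaceIndex ℚ (ℝ ⧸ W)) = 𝔠 := by
    rw [b.mk_eq_rank'', hV]
  have hle : #ℝ* ≤ #(Module.Basis.ofVectorSpaceIndex ℚ (ℝ ⧸ W)) := by
    rw [hb]
    exact mk_hyperreal_le
  obtain ⟨e⟩ := Cardinal.le_def _ _ |>.1 hle
  let φ : Module.Basis.ofVectorSpaceIndex ℚ (ℝ ⧸ W) → ℝ* := Function.invFun e
  have hφ : Function.Surjective φ := Function.invFun_surjective e.injective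
  let g : (ℝ ⧸ W) →ₗ[ℚ] ℝ* := b.constr ℚ φ
  have hg : Function.Surjective g := by
    intro y
    obtain ⟨i, rfl⟩ := hφ y
    exact ⟨b i, b.constr_basis ℚ φ i⟩
  let f₀ : ℝ →+ ℝ* := (g.comp W.mkQ).toAddMonoidHom
  have hf₀ : AddSubgroup.zmultiples (1 : ℝ) ≤ f₀.ker := by
    rw [AddSubgroup.zmultiples_le]
    show g (W.mkQ 1) = 0
    have : W.mkQ 1 = 0 := by
      rw [Submodule.mkQ_apply, Submodule.Quotient.mk_eq_zero]
      exact Submodule.subset_span rfl
    rw [this, map_zero]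
  refine ⟨QuotientAddGroup.lift (AddSubgroup.zmultiples (1 : ℝ)) f₀ hf₀, fun y => ?_⟩
  obtain ⟨v, rfl⟩ := hg y
  obtain ⟨x, rfl⟩ := W.mkQ_surjective v
  exact ⟨(x : AddCircle (1 : ℝ)), rfl⟩

end Q17.Para
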