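import Pool.Agent.Q17.Para.Hom

open Filter Topology Set

namespace Q17.Para

/-- the circle group -/
abbrev M := AddCircle (1 : ℝ)

/-- `f` takes arbitrarily large values -/
def Unb (f : M →+ ℝ*) : Prop := ∀ h : ℝ*, ∃ x, h ≤ f x

/-- Key lemma: an unbounded homomorphism takes large values on every non-meagre set of the form
(residual set) ∩ (nonempty open set). -/
theorem large_of_residual {f : M →+ ℝ*} (hf : Unb f) {R : Set M} (hR : R ∈ residual M)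
    {O : Set M} (hO : IsOpen O) (hne : O.Nonempty) (h : ℝ*) : ∃ y ∈ R ∩ O, h ≤ f y := by
  by_contra hcon
  push Not at hcon
  obtain ⟨b, hb⟩ := exists_bound (fun k => h + f (TopologicalSpace.denseSeq M k))
  have htr : ∀ c : M, {y | y - c ∈ R} ∈ residual M := by
    intro c
    have h1 := Homeomorph.residual_map_eq (Homeomorph.addRight c)
    rw [← h1, mem_map]
    refine mem_of_superset hR ?_
    intro y hy
    simpa using hy
  have hneg : ∀ S : Set M, S ∈ residual M → {y | -y ∈ S} ∈ residual M := by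
    intro S hS
    have h1 := Homeomorph.residual_map_eq (Homeomorph.neg M)
    rw [← h1, mem_map]
    refine mem_of_superset hS ?_
    intro y hy
    simpa using hy
  have hR' : (⋂ k, {y | y - TopologicalSpace.denseSeq M k ∈ R}) ∈ residual M :=
    countable_iInter_mem.2 fun k => htr _
  have hlt : ∀ y ∈ (⋂ k, {y | y - TopologicalSpace.denseSeq M k ∈ R}), f y < b := by
    intro y hy
    have hopen : IsOpen {x : M | y - x ∈ O} := hO.preimage (by fun_prop)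
    obtain ⟨o, ho⟩ := hne
    obtain ⟨x, hx, k, rfl⟩ := (TopologicalSpace.denseRange_denseSeq M).inter_open_nonempty _
      hopen ⟨y - o, by simpa using ho⟩
    have h1 := hcon _ ⟨mem_iInter.1 hy k, hx⟩
    rw [map_sub, sub_lt_iff_lt_add] at h1
    exact h1.trans (hb k)
  obtain ⟨c, hc⟩ := hf (b + b)
  have hS := inter_mem hR' (hneg _ hR')
  obtain ⟨y, ⟨hy1, -⟩, hy3⟩ : ((⋂ k, {y | y - TopologicalSpace.denseSeq M k ∈ R}) ∩
      {y | -y ∈ ⋂ k, {y | y - TopologicalSpace.denseSeq M k ∈ R}} ∩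
      {y | y - c ∈ {y | -y ∈ ⋂ k, {y | y - TopologicalSpace.denseSeq M k ∈ R}}}).Nonempty := by
    have hS2 : {y : M | y - c ∈ {y | -y ∈ ⋂ k, {y | y - TopologicalSpace.denseSeq M k ∈ R}}} ∈
        residual M := by
      have h1 := Homeomorph.residual_map_eq (Homeomorph.addRight c)
      rw [← h1, mem_map]
      refine mem_of_superset (hneg _ hR') ?_
      intro y hy
      simpa using hy
    exact (dense_of_mem_residual (inter_mem hS hS2)).nonempty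
  have h1 := hlt _ hy1
  have h2 := hlt _ hy3
  rw [neg_sub, map_sub] at h2
  have h3 : f c < b + b := by
    have := add_lt_add h1 h2
    simpa using this
  exact absurd (hc.trans_lt h3) (lt_irrefl _)

theorem large_of_open {f : M →+ ℝ*} (hf : Unb f) {O : Set M} (hO : IsOpen O) (hne : O.Nonempty)
    (h : ℝ*) : ∃ y ∈ O, h ≤ f y := by
  obtain ⟨y, hy, hy'⟩ := large_of_residual hf univ_mem hO hne h
  exact ⟨y, hy.2, hy'⟩

/-- The circle group in multiplicative notation, to be given a finer topology depending on `f`. -/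
def Q (_ : M →+ ℝ*) : Type := Multiplicative M

instance (f : M →+ ℝ*) : CommGroup (Q f) := inferInstanceAs (CommGroup (Multiplicative M))

/-- the underlying point of the circle -/
def pt {f : M →+ ℝ*} (x : Q f) : M := Multiplicative.toAdd x

/-- the element of `Q f` given by a point of the circle -/
def mk (f : M →+ ℝ*) (x : M) : Q f := Multiplicative.ofAdd x

@[simp] theorem pt_mk (f : M →+ ℝ*) (x : M) : pt (mk f x) = x := rfl
@[simp] theorem pt_mul {f : M →+ ℝ*} (x y : Q f) : pt (x * y) = pt x + pt y := rfl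
@[simp] theorem pt_inv {f : M →+ ℝ*} (x : Q f) : pt x⁻¹ = - pt x := rfl
@[simp] theorem pt_one {f : M →+ ℝ*} : pt (1 : Q f) = 0 := rfl

/-- The topology: `U` is open iff for every `x ∈ U` there is an open `B ∋ x` of the circle such
that `U` contains all `y ∈ B` with `f y ≥ f x`. -/
instance (f : M →+ ℝ*) : TopologicalSpace (Q f) where
  IsOpen U := ∀ x ∈ U, ∃ B : Set M, IsOpen B ∧ pt x ∈ B ∧ ∀ y : Q f, pt y ∈ B →
    f (pt x) ≤ f (pt y) → y ∈ U
  isOpen_univ := fun x _ => ⟨univ, isOpen_univ, trivial, fun _ _ _ => trivial⟩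
  isOpen_inter := by
    rintro U V hU hV x ⟨hxU, hxV⟩
    obtain ⟨B, h1, h2, h3⟩ := hU x hxU
    obtain ⟨B', h1', h2', h3'⟩ := hV x hxV
    exact ⟨B ∩ B', h1.inter h1', ⟨h2, h2'⟩, fun y hy hy' => ⟨h3 y hy.1 hy', h3' y hy.2 hy'⟩⟩
  isOpen_sUnion := by
    rintro S hS x ⟨U, hU, hxU⟩
    obtain ⟨B, h1, h2, h3⟩ := hS U hU x hxU
    exact ⟨B, h1, h2, fun y hy hy' => ⟨U, hU, h3 y hy hy'⟩⟩

theorem isOpen_Q {f : M →+ ℝ*} {U : Set (Q f)} : IsOpen U ↔ ∀ x ∈ U, ∃ B : Set M, IsOpen B ∧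
    pt x ∈ B ∧ ∀ y : Q f, pt y ∈ B → f (pt x) ≤ f (pt y) → y ∈ U := Iff.rfl

theorem isOpen_basic (f : M →+ ℝ*) {B : Set M} (hB : IsOpen B) (h : ℝ*) :
    IsOpen {y : Q f | pt y ∈ B ∧ h ≤ f (pt y)} := by
  rw [isOpen_Q]
  rintro x ⟨hx, hx'⟩
  exact ⟨B, hB, hx, fun y hy hy' => ⟨hy, hx'.trans hy'⟩⟩

theorem isOpen_basic' (f : M →+ ℝ*) {B : Set M} (hB : IsOpen B) (h : ℝ*) :
    IsOpen {y : Q f | pt y ∈ B ∧ h < f (pt y)} := by
  rw [isOpen_Q]
  rintro x ⟨hx, hx'⟩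
  exact ⟨B, hB, hx, fun y hy hy' => ⟨hy, hx'.trans_le hy'⟩⟩

theorem isOpen_pt (f : M →+ ℝ*) {B : Set M} (hB : IsOpen B) : IsOpen {y : Q f | pt y ∈ B} := by
  rw [isOpen_Q]
  intro x hx
  exact ⟨B, hB, hx, fun y hy _ => hy⟩

theorem continuous_pt (f : M →+ ℝ*) : Continuous (pt : Q f → M) :=
  ⟨fun _ hB => isOpen_pt f hB⟩

theorem mem_nhds_Q {f : M →+ ℝ*} {x : Q f} {W : Set (Q f)} : W ∈ 𝓝 x ↔ ∃ B : Set M, IsOpen B ∧
    pt x ∈ B ∧ ∀ y : Q f, pt y ∈ B → f (pt x) ≤ f (pt y) → y ∈ W := by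
  constructor
  · intro h
    obtain ⟨U, hUW, hU, hx⟩ := mem_nhds_iff.1 h
    obtain ⟨B, h1, h2, h3⟩ := hU x hx
    exact ⟨B, h1, h2, fun y hy hy' => hUW (h3 y hy hy')⟩
  · rintro ⟨B, h1, h2, h3⟩
    refine mem_of_superset ((isOpen_basic f h1 (f (pt x))).mem_nhds ⟨h2, le_rfl⟩) ?_
    rintro y ⟨hy, hy'⟩
    exact h3 y hy hy'

instance (f : M →+ ℝ*) : ContinuousMul (Q f) := by
  constructor
  rw [continuous_iff_continuousAt]
  rintro ⟨x, y⟩
  rw [ContinuousAt, tendsto_def]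
  intro W hW
  obtain ⟨B, hB, hxy, hW'⟩ := mem_nhds_Q.1 hW
  have hadd : (fun p : M × M => p.1 + p.2) ⁻¹' B ∈ 𝓝 (pt x, pt y) :=
    (continuous_add.isOpen_preimage B hB).mem_nhds hxy
  obtain ⟨B1, hB1, B2, hB2, h12⟩ := mem_nhds_prod_iff.1 hadd
  obtain ⟨C1, hC1, hC1o, hxC1⟩ := mem_nhds_iff.1 hB1
  obtain ⟨C2, hC2, hC2o, hyC2⟩ := mem_nhds_iff.1 hB2
  refine mem_nhds_prod_iff.2 ⟨{u | pt u ∈ C1 ∧ f (pt x) ≤ f (pt u)},
    (isOpen_basic f hC1o _).mem_nhds ⟨hxC1, le_rfl⟩, {u | pt u ∈ C2 ∧ f (pt y) ≤ f (pt u)},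
    (isOpen_basic f hC2o _).mem_nhds ⟨hyC2, le_rfl⟩, ?_⟩
  rintro ⟨u, v⟩ ⟨⟨hu, hu'⟩, ⟨hv, hv'⟩⟩
  refine hW' (u * v) (h12 (show (pt u, pt v) ∈ B1 ×ˢ B2 from ⟨hC1 hu, hC2 hv⟩)) ?_
  show f (pt (x * y)) ≤ f (pt (u * v))
  rw [pt_mul, pt_mul, map_add, map_add]
  exact add_le_add hu' hv'

instance (f : M →+ ℝ*) : T2Space (Q f) := by
  refine ⟨fun x y hxy => ?_⟩
  have hne : pt x ≠ pt y := hxy
  obtain ⟨U, V, hU, hV, hx, hy, hd⟩ := t2_separation hne
  exact ⟨_, _, isOpen_pt f hU, isOpen_pt f hV, hx, hy, hd.preimage _⟩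

/-- Baire property -/
theorem baire {f : M →+ ℝ*} (hf : Unb f) : BaireSpace (Q f) := by
  constructor
  intro O hO hd
  let C := TopologicalSpace.countableBasis M
  have : ∀ n, ∃ h : ℝ*, ∀ B ∈ C, ∃ x ∈ O n, pt x ∈ B ∧ f (pt x) ≤ h := by
    intro n
    have h1 : ∀ B : C, ∃ x ∈ O n, pt x ∈ (B : Set M) := by
      intro B
      have hBo : IsOpen (B : Set M) := TopologicalSpace.isOpen_of_mem_countableBasis B.2
      have hBne : (B : Set M).Nonempty := TopologicalSpace.nonempty_of_mem_countableBasis B.2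
      obtain ⟨b, hb⟩ := hBne
      obtain ⟨x, hx, hx'⟩ := (hd n).inter_open_nonempty _ (isOpen_pt f hBo) ⟨mk f b, hb⟩
      exact ⟨x, hx', hx⟩
    choose x hx hx' using h1
    have : Countable C := (TopologicalSpace.countable_countableBasis M).to_subtype
    have hCne : Nonempty C := by
      obtain ⟨B, hB, -⟩ := (TopologicalSpace.isBasis_countableBasis M).exists_subset_of_mem_open
        (mem_univ (0 : M)) isOpen_univ
      exact ⟨⟨B, hB⟩⟩
    obtain ⟨e, he⟩ := exists_surjective_nat C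
    obtain ⟨b, hb⟩ := exists_bound (fun k => f (pt (x (e k))))
    refine ⟨b, fun B hB => ⟨x ⟨B, hB⟩, hx ⟨B, hB⟩, hx' ⟨B, hB⟩, ?_⟩⟩
    obtain ⟨k, hk⟩ := he ⟨B, hB⟩
    have := (hb k).le
    simp only [hk] at this
    exact this
  choose h hh using this
  obtain ⟨b, hb⟩ := exists_bound h
  -- the open dense sets
  let R : ℕ → Set M := fun n => ⋃₀ {B | IsOpen B ∧ ∃ x ∈ O n, pt x ∈ B ∧ f (pt x) ≤ h n ∧
    ∀ y : Q f, pt y ∈ B → f (pt x) ≤ f (pt y) → y ∈ O n}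
  have hRo : ∀ n, IsOpen (R n) := fun n => isOpen_sUnion fun B hB => hB.1
  have hRd : ∀ n, Dense (R n) := by
    intro n
    rw [(TopologicalSpace.isBasis_countableBasis M).dense_iff]
    intro B hB _
    obtain ⟨x, hx, hxB, hxh⟩ := hh n B hB
    obtain ⟨B', hB'o, hxB', hB'⟩ := (isOpen_Q.1 (hO n)) x hx
    exact ⟨pt x, hxB, B', ⟨hB'o, x, hx, hxB', hxh, hB'⟩, hxB'⟩
  have hRO : ∀ n (y : Q f), pt y ∈ R n → h n ≤ f (pt y) → y ∈ O n := by
    rintro n y ⟨B, ⟨-, x, -, -, hxh, hB⟩, hy⟩ hy'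
    exact hB y hy (hxh.trans hy')
  have hres : (⋂ n, R n) ∈ residual M :=
    countable_iInter_mem.2 fun n => residual_of_dense_open (hRo n) (hRd n)
  rw [dense_iff_inter_open]
  rintro W hW ⟨w, hw⟩
  obtain ⟨B, hB, hwB, hBW⟩ := (isOpen_Q.1 hW) w hw
  obtain ⟨y, ⟨hy1, hy2⟩, hy3⟩ := large_of_residual hf hres hB ⟨_, hwB⟩ (max b (f (pt w)))
  refine ⟨mk f y, hBW _ hy2 ((le_max_right _ _).trans hy3), ?_⟩
  rw [mem_iInter]
  intro n
  exact hRO n _ (mem_iInter.1 hy1 n) (((hb n).le.trans (le_max_left _ _)).trans hy3)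

/-- every locally finite family of nonempty open sets is finite -/
theorem feebly {f : M →+ ℝ*} (hf : Unb f) (F : Set (Set (Q f)))
    (hF : ∀ O ∈ F, IsOpen O ∧ O.Nonempty)
    (hloc : ∀ x : Q f, ∃ U ∈ 𝓝 x, {O ∈ F | (O ∩ U).Nonempty}.Finite) : F.Finite := by
  by_contra hinf
  rw [← Set.Infinite] at hinf
  have := hinf.to_subtype
  let e : ℕ ↪ F := Infinite.natEmbedding F
  have h1 : ∀ n, ∃ x : Q f, ∃ B : Set M, IsOpen B ∧ pt x ∈ B ∧
      ∀ y : Q f, pt y ∈ B → f (pt x) ≤ f (pt y) → y ∈ (e n : Set (Q f)) := by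
    intro n
    obtain ⟨hO, x, hx⟩ := hF _ (e n).2
    obtain ⟨B, hB⟩ := (isOpen_Q.1 hO) x hx
    exact ⟨x, B, hB⟩
  choose x B hBo hxB hB using h1
  obtain ⟨z, hz⟩ : ∃ z : M, MapClusterPt z atTop (fun n => pt (x n)) :=
    exists_clusterPt_of_compactSpace _
  obtain ⟨U, hU, hUf⟩ := hloc (mk f z)
  obtain ⟨C, hCo, hzC, hCU⟩ := mem_nhds_Q.1 hU
  have hfr : ∃ᶠ n in atTop, pt (x n) ∈ C := hz.frequently (hCo.mem_nhds hzC)
  have hinf2 : {n | pt (x n) ∈ C}.Infinite := Nat.frequently_atTop_iff_infinite.1 hfr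
  have hinj : Function.Injective (fun n => (e n : Set (Q f))) := fun m n hmn =>
    e.injective (Subtype.ext hmn)
  have hinf3 := hinf2.image hinj.injOn
  apply hinf3
  refine hUf.subset ?_
  rintro _ ⟨n, hn, rfl⟩
  refine ⟨(e n).2, ?_⟩
  obtain ⟨y, ⟨hy1, hy2⟩, hy3⟩ := large_of_open hf (hCo.inter (hBo n)) ⟨pt (x n), hn, hxB n⟩
    (max (f (pt (x n))) (f z))
  exact ⟨mk f y, hB n _ hy2 ((le_max_left _ _).trans hy3),
    hCU _ hy1 ((le_max_right _ _).trans hy3)⟩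

/-- a decreasing sequence of nonempty open sets whose inverses have closures with empty
intersection -/
theorem not_two {f : M →+ ℝ*} (hf : Unb f) : ∃ U : ℕ → Set (Q f), (∀ n, IsOpen (U n)) ∧
    (∀ n, (U n).Nonempty) ∧ (∀ n, U (n + 1) ⊆ U n) ∧ (⋂ n, closure {x | x⁻¹ ∈ U n}) = ∅ := by
  let B : ℕ → Set M := fun n => Metric.ball 0 (1 / ((n : ℝ) + 1))
  have hpos : ∀ n : ℕ, (0 : ℝ) < 1 / ((n : ℝ) + 1) := fun n => by positivity
  refine ⟨fun n => {y | pt y ∈ B n ∧ 0 < f (pt y)}, fun n => isOpen_basic' f Metric.isOpen_ball 0,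
    fun n => ?_, fun n => ?_, ?_⟩
  · obtain ⟨y, hy, hy'⟩ := large_of_open hf (Metric.isOpen_ball (x := (0 : M))
      (ε := 1 / ((n : ℝ) + 1))) ⟨0, Metric.mem_ball_self (hpos n)⟩ 1
    exact ⟨mk f y, hy, zero_lt_one.trans_le hy'⟩
  · rintro y ⟨hy, hy'⟩
    refine ⟨Metric.ball_subset_ball ?_ hy, hy'⟩
    rw [Nat.cast_add, Nat.cast_one]
    apply one_div_le_one_div_of_le (by positivity)
    linarith
  · rw [Set.eq_empty_iff_forall_notMem]
    intro y hy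
    rw [mem_iInter] at hy
    have h1 : ∀ n : ℕ, ‖pt y‖ ≤ 1 / ((n : ℝ) + 1) := by
      intro n
      have h2 : y ∈ closure {x : Q f | ‖pt x‖ ≤ 1 / ((n : ℝ) + 1)} := by
        refine closure_mono ?_ (hy n)
        rintro x ⟨hx, -⟩
        rw [pt_inv, mem_ball_zero_iff, norm_neg] at hx
        exact hx.le
      have h3 : IsClosed {x : Q f | ‖pt x‖ ≤ 1 / ((n : ℝ) + 1)} :=
        isClosed_le (continuous_norm.comp (continuous_pt f)) continuous_const
      rwa [h3.closure_eq] at h2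
    have h4 : ‖pt y‖ ≤ 0 := ge_of_tendsto' tendsto_one_div_add_atTop_nhds_zero_nat h1
    have h5 : pt y = 0 := norm_le_zero_iff.1 h4
    have h6 : {u : Q f | pt u ∈ (univ : Set M) ∧ 0 ≤ f (pt u)} ∈ 𝓝 y :=
      (isOpen_basic f isOpen_univ 0).mem_nhds ⟨trivial, by rw [h5, map_zero]⟩
    obtain ⟨u, ⟨-, hu1⟩, -, hu2⟩ := mem_closure_iff_nhds.1 (hy 0) _ h6
    rw [pt_inv, map_neg, Left.neg_pos_iff] at hu2
    exact absurd (hu1.trans_lt hu2) (lt_irrefl _)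

end Q17.Para
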